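import Mathlib

set_option autoImplicit false

/-!
Combinatorial part of the non-ergodicity proof for a noisy two-sided eroder:
walks with two states (down = false, up = true) on the space-time lattice.
-/

namespace Pool.Agent.MP798553

/-- Walk vertices: a state (false = down, true = up) and a space-time point. -/
abbrev Vx : Type := Bool × ℤ × ℤ × ℤ

/-- Step labels. First coordinate: kind of step (0 = D, 1 = U, 2 = S, 3 = K). -/
abbrev Tok : Type := Fin 4 × Bool × Bool

/-- Bool to integer. -/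
def bz (b : Bool) : ℤ := if b then 1 else 0

/-- The effect of a step. -/
def mv (k : Tok) (v : Vx) : Vx :=
  if k.1 = 0 then (false, v.2.1, v.2.2.1 + bz k.2.1, v.2.2.2 - 1)
  else if k.1 = 1 then (true, v.2.1 - 1, v.2.2.1 - bz k.2.1, v.2.2.2 + 1)
  else if k.1 = 2 then (false, v.2.1 + 1, v.2.2.1 + (bz k.2.1 - bz k.2.2), v.2.2.2)
  else (true, v.2.1, v.2.2.1, v.2.2.2)

/-- The state in which a step may be used. -/
def src (k : Tok) : Bool :=
  if k.1 = 0 then false
  else if k.1 = 1 then true
  else if k.1 = 2 then true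
  else false

/-- Validity of a list of steps from a vertex; K steps only at points of `Δ`. -/
def Valid (Δ : Set (ℤ × ℤ × ℤ)) : List Tok → Vx → Prop
  | [], _ => True
  | k :: l, v => v.1 = src k ∧ (k.1 = 3 → v.2 ∈ Δ) ∧ Valid Δ l (mv k v)

/-- End vertex of a list of steps. -/
def run : List Tok → Vx → Vx
  | [], v => v
  | k :: l, v => run l (mv k v)

/-- Points at which K steps are used. -/
def kpts : List Tok → Vx → List (ℤ × ℤ × ℤ)
  | [], _ => []
  | k :: l, v => if k.1 = 3 then v.2 :: kpts l (mv k v) else kpts l (mv k v)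

/-- The potential. -/
def pot (v : Vx) : ℤ := 2 * v.2.1 + v.2.2.2 + (if v.1 then 3 else 0)

lemma run_append (l l' : List Tok) (v : Vx) : run (l ++ l') v = run l' (run l v) := by
  induction l generalizing v with
  | nil => rfl
  | cons k l ih => simp [run, ih]

lemma valid_append (Δ : Set (ℤ × ℤ × ℤ)) (l l' : List Tok) (v : Vx) :
    Valid Δ (l ++ l') v ↔ Valid Δ l v ∧ Valid Δ l' (run l v) := by
  induction l generalizing v with
  | nil => simp [Valid, run]
  | cons k l ih => simp [Valid, run, ih, and_assoc]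

lemma valid_mono {Δ Δ' : Set (ℤ × ℤ × ℤ)} (h : Δ ⊆ Δ') (l : List Tok) (v : Vx)
    (hv : Valid Δ l v) : Valid Δ' l v := by
  induction l generalizing v with
  | nil => trivial
  | cons k l ih => exact ⟨hv.1, fun hk => h (hv.2.1 hk), ih _ hv.2.2⟩

/-- Reachability. -/
def Reach (Δ : Set (ℤ × ℤ × ℤ)) (u v : Vx) : Prop := ∃ l, Valid Δ l u ∧ run l u = v

lemma Reach.trans {Δ : Set (ℤ × ℤ × ℤ)} {u v w : Vx} (h : Reach Δ u v) (h' : Reach Δ v w) :
    Reach Δ u w := by
  obtain ⟨l, hl, rfl⟩ := h
  obtain ⟨l', hl', rfl⟩ := h'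
  exact ⟨l ++ l', (valid_append _ _ _ _).2 ⟨hl, hl'⟩, run_append _ _ _⟩

lemma Reach.mono {Δ Δ' : Set (ℤ × ℤ × ℤ)} (h : Δ ⊆ Δ') {u v : Vx} (hr : Reach Δ u v) :
    Reach Δ' u v := by
  obtain ⟨l, hl, rfl⟩ := hr
  exact ⟨l, valid_mono h _ _ hl, rfl⟩

lemma reach_K {Δ : Set (ℤ × ℤ × ℤ)} {i j t : ℤ} (h : (i, j, t) ∈ Δ) :
    Reach Δ (false, i, j, t) (true, i, j, t) :=
  ⟨[(3, false, false)], by simp [Valid, src, h], by simp [run, mv]⟩

lemma reach_D {Δ : Set (ℤ × ℤ × ℤ)} (i j t : ℤ) (a : Bool) :
    Reach Δ (false, i, j, t + 1) (false, i, j + bz a, t) :=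
  ⟨[(0, a, false)], by simp [Valid, src], by simp [run, mv]⟩

lemma reach_U {Δ : Set (ℤ × ℤ × ℤ)} (i j t : ℤ) (b : Bool) :
    Reach Δ (true, i + 1, j + bz b, t) (true, i, j, t + 1) :=
  ⟨[(1, b, false)], by simp [Valid, src], by simp [run, mv]⟩

lemma reach_S {Δ : Set (ℤ × ℤ × ℤ)} (i j t : ℤ) (a b : Bool) :
    Reach Δ (true, i, j + bz a, t) (false, i + 1, j + bz b, t) :=
  ⟨[(2, b, a)], by simp [Valid, src], by simp [run, mv]⟩

/-- The inductive step of the explanation argument. -/
lemma reach_succ {Δ : Set (ℤ × ℤ × ℤ)} {i j t : ℤ} (a b : Bool)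
    (hL : Reach Δ (false, i, j + bz a, t) (true, i, j + bz a, t))
    (hR : Reach Δ (false, i + 1, j + bz b, t) (true, i + 1, j + bz b, t)) :
    Reach Δ (false, i, j, t + 1) (true, i, j, t + 1) :=
  (reach_D i j t a).trans (hL.trans ((reach_S i j t a b).trans (hR.trans (reach_U i j t b))))

/-- A shortest list of steps uses every K point once. -/
lemma exists_nodup {Δ : Set (ℤ × ℤ × ℤ)} {u v : Vx} (h : Reach Δ u v) :
    ∃ l, Valid Δ l u ∧ run l u = v ∧ (kpts l u).Nodup := by
  classical
  -- `Rn n w`: there is a valid list of length `n` from `w` to `v`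
  let Rn : ℕ → Vx → Prop := fun n w => ∃ l, Valid Δ l w ∧ run l w = v ∧ l.length = n
  have key : ∀ n : ℕ, ∀ w : Vx, Rn n w → (∀ m, m < n → ¬ Rn m w) →
      ∀ l, Valid Δ l w → run l w = v → l.length = n →
      (kpts l w).Nodup ∧ ∀ p ∈ kpts l w, ∃ m ≤ n, Rn m (false, p) ∧ ∀ m' < m, ¬ Rn m' (false, p) := by
    intro n
    induction n with
    | zero =>
      intro w _ _ l _ _ hlen
      have : l = [] := List.length_eq_zero_iff.mp hlen
      subst this
      simp [kpts]
    | succ n ih =>
      intro w hw hmin l hval hrun hlen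
      cases l with
      | nil => simp at hlen
      | cons k l =>
        simp only [List.length_cons, add_left_inj] at hlen
        have hv := hval
        obtain ⟨h1, h2, h3⟩ := hval
        have hmin' : ∀ m, m < n → ¬ Rn m (mv k w) := by
          rintro m hm ⟨l', hl', hr', hlen'⟩
          exact hmin (m + 1) (by omega) ⟨k :: l', ⟨h1, h2, hl'⟩, hr', by simp [hlen']⟩
        obtain ⟨hnd, hex⟩ := ih (mv k w) ⟨l, h3, hrun, hlen⟩ hmin' l h3 hrun hlen
        by_cases hk : k.1 = 3
        · have hsrc : w.1 = false := by rw [h1]; simp [src, hk]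
          have hw' : w = (false, w.2) := by rw [← hsrc]
          have e1 : kpts (k :: l) w = w.2 :: kpts l (mv k w) := by simp [kpts, hk]
          rw [e1]
          refine ⟨List.nodup_cons.2 ⟨?_, hnd⟩, ?_⟩
          · intro hmem
            obtain ⟨m, hm, hR, -⟩ := hex _ hmem
            rw [← hw'] at hR
            exact hmin m (by omega) hR
          · intro p hp
            rcases List.mem_cons.1 hp with rfl | hp
            · refine ⟨n + 1, le_rfl, ?_, ?_⟩
              · rw [← hw']; exact hw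
              · rw [← hw']; exact hmin
            · obtain ⟨m, hm, hR⟩ := hex p hp
              exact ⟨m, by omega, hR⟩
        · have e1 : kpts (k :: l) w = kpts l (mv k w) := by simp [kpts, hk]
          rw [e1]
          refine ⟨hnd, fun p hp => ?_⟩
          obtain ⟨m, hm, hR⟩ := hex p hp
          exact ⟨m, by omega, hR⟩
  obtain ⟨l0, hl0, hr0⟩ := h
  have hex : ∃ n, Rn n u := ⟨l0.length, l0, hl0, hr0, rfl⟩
  obtain ⟨l, hl, hr, hlen⟩ := Nat.find_spec hex
  exact ⟨l, hl, hr, (key _ u (Nat.find_spec hex) (fun m hm => Nat.find_min hex hm) l hl hr hlen).1⟩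

/-- Change of the potential along a list of steps. -/
lemma pot_run {Δ : Set (ℤ × ℤ × ℤ)} (l : List Tok) (v : Vx) (h : Valid Δ l v) :
    pot (run l v) = pot v - l.length + 4 * (kpts l v).length := by
  induction l generalizing v with
  | nil => simp [run, kpts]
  | cons k l ih =>
    obtain ⟨h1, h2, h3⟩ := h
    have := ih (mv k v) h3
    rw [run, this]
    obtain ⟨k0, a, b⟩ := k
    obtain ⟨s, i, j, t⟩ := v
    simp only [src] at h1
    fin_cases k0
    · simp at h1; subst h1
      simp [kpts, mv, pot]; ring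
    · simp at h1; subst h1
      simp [kpts, mv, pot]; ring
    · simp at h1; subst h1
      simp [kpts, mv, pot]; ring
    · simp at h1; subst h1
      simp [kpts, mv, pot]; ring

lemma kpts_mem {Δ : Set (ℤ × ℤ × ℤ)} (l : List Tok) (v : Vx) (h : Valid Δ l v) :
    ∀ p ∈ kpts l v, p ∈ Δ := by
  induction l generalizing v with
  | nil => simp [kpts]
  | cons k l ih =>
    obtain ⟨h1, h2, h3⟩ := h
    intro p hp
    by_cases hk : k.1 = 3
    · simp only [kpts, hk, if_true, List.mem_cons] at hp
      rcases hp with rfl | hp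
      · exact h2 hk
      · exact ih _ h3 p hp
    · simp only [kpts, hk, if_false] at hp
      exact ih _ h3 p hp

/-- Summary: from reachability we get a list of steps with distinct K points, all in `Δ`,
whose number is `(length + 3) / 4`. -/
theorem exists_walk {Δ : Set (ℤ × ℤ × ℤ)} {p : ℤ × ℤ × ℤ}
    (h : Reach Δ (false, p) (true, p)) :
    ∃ l : List Tok, (kpts l (false, p)).Nodup ∧
      4 * (kpts l (false, p)).length = l.length + 3 ∧ ∀ q ∈ kpts l (false, p), q ∈ Δ := by
  obtain ⟨l, hl, hr, hn⟩ := exists_nodup h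
  refine ⟨l, hn, ?_, kpts_mem l _ hl⟩
  have := pot_run l _ hl
  rw [hr] at this
  simp only [pot, Bool.false_eq_true, if_false, if_true] at this
  omega

end Pool.Agent.MP798553
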