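import Mathlib
import Pool.Agent.Lib.MP_798553_pr.Walk

set_option autoImplicit false

open MeasureTheory Filter Topology
open scoped ENNReal

namespace Pool.Agent.MP798553

/-- Sites. -/
abbrev Site : Type := Fin 2 → ℤ
/-- Configurations. -/
abbrev Cfg : Type := Site → Fin 3
/-- Noise at one time: a random self-map of the alphabet at each site. -/
abbrev Nz : Type := Site → Fin 3 → Fin 3

/-- One-site noise law. -/
noncomputable def nu (θ : Fin 3 → PMF (Fin 3)) : Measure (Fin 3 → Fin 3) :=
  Measure.pi (fun b => (θ b).toMeasure)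

instance (θ : Fin 3 → PMF (Fin 3)) : IsProbabilityMeasure (nu θ) := by
  unfold nu; infer_instance

/-- The law of the noise field. -/
noncomputable def Qn (θ : Fin 3 → PMF (Fin 3)) : Measure Nz :=
  Measure.infinitePi (fun _ : Site => nu θ)

instance (θ : Fin 3 → PMF (Fin 3)) : IsProbabilityMeasure (Qn θ) := by
  unfold Qn; infer_instance

/-- One step kernel. -/
noncomputable def ker (F : Cfg → Cfg) (θ : Fin 3 → PMF (Fin 3)) (x : Cfg) : Measure Cfg :=
  Measure.infinitePi (fun i : Site => (θ (F x i)).toMeasure)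

lemma nu_map (θ : Fin 3 → PMF (Fin 3)) (b : Fin 3) :
    (nu θ).map (fun g => g b) = (θ b).toMeasure :=
  (measurePreserving_eval (fun b => (θ b).toMeasure) b).map_eq

/-- Update map. -/
def upd (F : Cfg → Cfg) (x : Cfg) (w : Nz) : Cfg := fun i => w i (F x i)

lemma ker_eq (F : Cfg → Cfg) (θ : Fin 3 → PMF (Fin 3)) (x : Cfg) :
    ker F θ x = (Qn θ).map (upd F x) := by
  unfold ker Qn upd
  have := Measure.infinitePi_map_pi (μ := fun _ : Site => nu θ)
    (f := fun i (g : Fin 3 → Fin 3) => g (F x i)) (fun i => by fun_prop)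
  rw [this]
  congr 1
  ext1 i
  rw [nu_map]

lemma measurable_upd (F : Cfg → Cfg) (hF : ∀ i, Measurable (fun x => F x i)) :
    Measurable (fun p : Cfg × Nz => upd F p.1 p.2) := by
  refine measurable_pi_iff.2 fun i => ?_
  have h1 : Measurable (fun p : Cfg × Nz => ((p.2 i, F p.1 i) : (Fin 3 → Fin 3) × Fin 3)) := by
    refine Measurable.prodMk ?_ ?_
    · fun_prop
    · exact (hF i).comp measurable_fst
  have h2 : Measurable (fun q : (Fin 3 → Fin 3) × Fin 3 => q.1 q.2) := Measurable.of_discrete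
  exact h2.comp h1

lemma measurable_upd' (F : Cfg → Cfg) (hF : ∀ i, Measurable (fun x => F x i)) (x : Cfg) :
    Measurable (upd F x) :=
  (measurable_upd F hF).comp (measurable_const.prodMk measurable_id)

lemma measurable_ker (F : Cfg → Cfg) (hF : ∀ i, Measurable (fun x => F x i))
    (θ : Fin 3 → PMF (Fin 3)) : Measurable (ker F θ) := by
  refine Measure.measurable_of_measurable_coe _ fun s hs => ?_
  have : (fun x => ker F θ x s) =
      fun x => Qn θ (Prod.mk x ⁻¹' ((fun p : Cfg × Nz => upd F p.1 p.2) ⁻¹' s)) := by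
    ext x
    rw [ker_eq, Measure.map_apply (measurable_upd' F hF x) hs]
    rfl
  rw [this]
  exact measurable_measure_prodMk_left (measurable_upd F hF hs)

/-- Noise histories of length `n`. -/
def Hist : ℕ → Type
  | 0 => Unit
  | n + 1 => Hist n × Nz

instance instHist : (n : ℕ) → MeasurableSpace (Hist n)
  | 0 => (inferInstance : MeasurableSpace Unit)
  | n + 1 => @Prod.instMeasurableSpace _ _ (instHist n) (inferInstance : MeasurableSpace Nz)

/-- The law of the noise history. -/
noncomputable def Pn (θ : Fin 3 → PMF (Fin 3)) : (n : ℕ) → Measure (Hist n)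
  | 0 => (Measure.dirac () : Measure Unit)
  | n + 1 => (Pn θ n).prod (Qn θ)

instance instPn (θ : Fin 3 → PMF (Fin 3)) : (n : ℕ) → IsProbabilityMeasure (Pn θ n)
  | 0 => (inferInstance : IsProbabilityMeasure (Measure.dirac () : Measure Unit))
  | n + 1 => by
    have := instPn θ n
    exact (inferInstance : IsProbabilityMeasure ((Pn θ n).prod (Qn θ)))

/-- The configuration at time `n`. -/
def Xn (F : Cfg → Cfg) (x0 : Cfg) : (n : ℕ) → Hist n → Cfg
  | 0, _ => x0
  | n + 1, h => upd F (Xn F x0 n h.1) h.2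

lemma measurable_Xn (F : Cfg → Cfg) (hF : ∀ i, Measurable (fun x => F x i)) (x0 : Cfg) (n : ℕ) :
    Measurable (Xn F x0 n) := by
  induction n with
  | zero => exact measurable_const
  | succ n ih =>
    exact (measurable_upd F hF).comp ((ih.comp measurable_fst).prodMk measurable_snd)

/-- The law of the configuration at time `n` is the `n`-th iterate. -/
theorem law_Xn (F : Cfg → Cfg) (hF : ∀ i, Measurable (fun x => F x i))
    (θ : Fin 3 → PMF (Fin 3)) (x0 : Cfg) (n : ℕ) :
    (fun m : Measure Cfg => m.bind (ker F θ))^[n] (Measure.dirac x0) =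
      (Pn θ n).map (Xn F x0 n) := by
  induction n with
  | zero =>
    simp only [Function.iterate_zero, id_eq]
    change _ = Measure.map (fun _ : Unit => x0) (Measure.dirac ())
    rw [Measure.map_dirac]
  | succ n ih =>
    rw [Function.iterate_succ_apply', ih]
    ext s hs
    have hk : Measurable (fun a => ker F θ a s) :=
      (Measure.measurable_coe hs).comp (measurable_ker F hF θ)
    rw [Measure.bind_apply hs (measurable_ker F hF θ).aemeasurable,
      lintegral_map hk (measurable_Xn F hF x0 n),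
      Measure.map_apply (measurable_Xn F hF x0 (n + 1)) hs]
    change _ = ((Pn θ n).prod (Qn θ)) _
    rw [Measure.prod_apply (measurable_Xn F hF x0 (n + 1) hs)]
    refine lintegral_congr fun h => ?_
    rw [ker_eq, Measure.map_apply (measurable_upd' F hF _) hs]
    rfl

/-- The set of defects in a noise history: defect at `(i, j, t)` if `1 ≤ t ≤ n` and the noise map at
time `t` at the site `e (i, j)` lies in `A`. -/
def Dn (e : ℤ × ℤ → Site) (A : Set (Fin 3 → Fin 3)) : (n : ℕ) → Hist n → Set (ℤ × ℤ × ℤ)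
  | 0, _ => ∅
  | n + 1, h => Dn e A n h.1 ∪ {p | p.2.2 = (n : ℤ) + 1 ∧ h.2 (e (p.1, p.2.1)) ∈ A}

lemma Dn_le (e : ℤ × ℤ → Site) (A : Set (Fin 3 → Fin 3)) (n : ℕ) (h : Hist n)
    (p : ℤ × ℤ × ℤ) (hp : p ∈ Dn e A n h) : p.2.2 ≤ n := by
  induction n with
  | zero => exact absurd hp (by simp [Dn])
  | succ n ih =>
    rcases hp with hp | hp
    · have := ih h.1 hp
      push_cast; omega
    · have := hp.1
      push_cast; omega

/-- Probability that finitely many given points are all defects. -/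
lemma prob_defects (θ : Fin 3 → PMF (Fin 3)) (e : ℤ × ℤ → Site) (he : Function.Injective e)
    (A : Set (Fin 3 → Fin 3)) (ε : ℝ≥0∞) (hA : nu θ A ≤ ε) (n : ℕ)
    (S : Finset (ℤ × ℤ × ℤ)) :
    Pn θ n {h | ∀ p ∈ S, p ∈ Dn e A n h} ≤ ε ^ S.card := by
  classical
  induction n generalizing S with
  | zero =>
    by_cases hS : S = ∅
    · subst hS
      simp
    · obtain ⟨p, hp⟩ := Finset.nonempty_iff_ne_empty.2 hS
      have : {h : Hist 0 | ∀ p ∈ S, p ∈ Dn e A 0 h} = ∅ := by
        ext h
        simp only [Set.mem_ofPred_eq, Set.mem_empty_iff_false, iff_false]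
        intro hh
        exact absurd (hh p hp) (by simp [Dn])
      rw [this]; simp
  | succ n ih =>
    set S2 := S.filter (fun p => p.2.2 = (n : ℤ) + 1) with hS2
    set S1 := S.filter (fun p => ¬ p.2.2 = (n : ℤ) + 1) with hS1
    have hcard : S.card = S1.card + S2.card := by
      rw [add_comm, hS1, hS2, Finset.card_filter_add_card_filter_not]
    let T2 : Finset Site := S2.image (fun p => e (p.1, p.2.1))
    have hT2 : T2.card = S2.card := by
      refine Finset.card_image_of_injOn ?_
      intro p hp q hq hpq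
      have h1 := he hpq
      have hp' := (Finset.mem_filter.1 (Finset.mem_coe.1 hp)).2
      have hq' := (Finset.mem_filter.1 (Finset.mem_coe.1 hq)).2
      have h2 : p.2.2 = q.2.2 := by rw [hp', hq']
      simp only [Prod.mk.injEq] at h1
      exact Prod.ext h1.1 (Prod.ext h1.2 h2)
    have hsub : {h : Hist (n + 1) | ∀ p ∈ S, p ∈ Dn e A (n + 1) h} ⊆
        {h | ∀ p ∈ S1, p ∈ Dn e A n h} ×ˢ (Set.pi (T2 : Set Site) (fun _ => A)) := by
      rintro ⟨h, w⟩ hh
      constructor
      · intro p hp
        have hp' := Finset.mem_filter.1 hp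
        rcases hh p hp'.1 with h3 | h3
        · exact h3
        · exact absurd h3.1 hp'.2
      · intro s hs
        simp only [T2, Finset.coe_image, Set.mem_image, Finset.mem_coe] at hs
        obtain ⟨p, hp, rfl⟩ := hs
        have hp' := Finset.mem_filter.1 hp
        rcases hh p hp'.1 with h3 | h3
        · have := Dn_le _ _ _ _ _ h3
          rw [hp'.2] at this
          omega
        · exact h3.2
    calc Pn θ (n + 1) {h | ∀ p ∈ S, p ∈ Dn e A (n + 1) h}
        ≤ ((Pn θ n).prod (Qn θ)) ({h | ∀ p ∈ S1, p ∈ Dn e A n h} ×ˢ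
            (Set.pi (T2 : Set Site) (fun _ => A))) := measure_mono hsub
      _ = Pn θ n {h | ∀ p ∈ S1, p ∈ Dn e A n h} * Qn θ (Set.pi (T2 : Set Site) (fun _ => A)) :=
          Measure.prod_prod _ _
      _ ≤ ε ^ S1.card * ε ^ S2.card := by
          refine mul_le_mul' (ih S1) ?_
          rw [Qn, Measure.infinitePi_pi _ (fun _ _ => MeasurableSet.of_discrete), Finset.prod_const,
            hT2]
          exact pow_le_pow_left' hA _
      _ = ε ^ S.card := by rw [hcard, pow_add]

/-- The main estimate. -/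
theorem main_bound (F : Cfg → Cfg) (θ : Fin 3 → PMF (Fin 3)) (x0 : Cfg)
    (e : ℤ × ℤ → Site) (he : Function.Injective e) (A : Set (Fin 3 → Fin 3)) (B : Set (Fin 3))
    (hx0 : ∀ i, x0 i ∉ B)
    (hstep : ∀ (x : Cfg) (w : Nz) (i j : ℤ), w (e (i, j)) (F x (e (i, j))) ∈ B →
      w (e (i, j)) ∈ A ∨ ((x (e (i, j)) ∈ B ∨ x (e (i, j + 1)) ∈ B) ∧
        (x (e (i + 1, j)) ∈ B ∨ x (e (i + 1, j + 1)) ∈ B)))
    (hA : nu θ A ≤ (1 / 32 : ℝ≥0∞) ^ 4) (n : ℕ) (i j : ℤ) :
    Pn θ n {h | Xn F x0 n h (e (i, j)) ∈ B} ≤ (1 / 32 : ℝ≥0∞) := by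
  classical
  have hreach : ∀ n : ℕ, ∀ h : Hist n, ∀ i j : ℤ, Xn F x0 n h (e (i, j)) ∈ B →
      Reach (Dn e A n h) (false, i, j, (n : ℤ)) (true, i, j, (n : ℤ)) := by
    intro n
    induction n with
    | zero =>
      intro h i j hB
      exact absurd hB (hx0 _)
    | succ n ih =>
      rintro ⟨h, w⟩ i j hB
      have hmono : Dn e A n h ⊆ Dn e A (n + 1) (h, w) := fun p hp => Or.inl hp
      rcases hstep (Xn F x0 n h) w i j hB with hA' | ⟨h1, h2⟩
      · refine reach_K (Or.inr ⟨?_, hA'⟩)
        push_cast; ring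
      · have hL : ∃ a : Bool, Xn F x0 n h (e (i, j + bz a)) ∈ B := by
          rcases h1 with h1 | h1
          · exact ⟨false, by simpa [bz] using h1⟩
          · exact ⟨true, by simpa [bz] using h1⟩
        have hR : ∃ a : Bool, Xn F x0 n h (e (i + 1, j + bz a)) ∈ B := by
          rcases h2 with h2 | h2
          · exact ⟨false, by simpa [bz] using h2⟩
          · exact ⟨true, by simpa [bz] using h2⟩
        obtain ⟨a, ha⟩ := hL
        obtain ⟨b, hb⟩ := hR
        have := reach_succ a b ((ih h _ _ ha).mono hmono) ((ih h _ _ hb).mono hmono)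
        simpa using this
  set r : ℤ × ℤ × ℤ := (i, j, (n : ℤ)) with hr
  set δ : ℝ≥0∞ := 1 / 32 with hδ
  let E : (m : ℕ) → List.Vector Tok m → Set (Hist n) := fun m l =>
    {h | (kpts l.1 (false, r)).Nodup ∧ 4 * (kpts l.1 (false, r)).length = m + 3 ∧
      ∀ q ∈ kpts l.1 (false, r), q ∈ Dn e A n h}
  have hcover : {h | Xn F x0 n h (e (i, j)) ∈ B} ⊆ ⋃ m : ℕ, ⋃ l : List.Vector Tok m, E m l := by
    intro h hh
    obtain ⟨l, h1, h2, h3⟩ := exists_walk (hreach n h i j hh)
    exact Set.mem_iUnion.2 ⟨l.length, Set.mem_iUnion.2 ⟨⟨l, rfl⟩, h1, h2, h3⟩⟩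
  have hE : ∀ m (l : List.Vector Tok m), Pn θ n (E m l) ≤ δ ^ (m + 3) := by
    intro m l
    by_cases hc : (kpts l.1 (false, r)).Nodup ∧ 4 * (kpts l.1 (false, r)).length = m + 3
    · have hsub : E m l ⊆ {h | ∀ p ∈ (kpts l.1 (false, r)).toFinset, p ∈ Dn e A n h} := by
        intro h hh p hp
        exact hh.2.2 p (List.mem_toFinset.1 hp)
      calc Pn θ n (E m l) ≤ _ := measure_mono hsub
        _ ≤ (δ ^ 4) ^ (kpts l.1 (false, r)).toFinset.card := prob_defects θ e he A _ hA n _
        _ = δ ^ (m + 3) := by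
          rw [← pow_mul, List.toFinset_card_of_nodup hc.1, hc.2]
    · have : E m l = ∅ := by
        ext h
        simp only [Set.mem_empty_iff_false, iff_false]
        rintro ⟨h1, h2, -⟩
        exact hc ⟨h1, h2⟩
      rw [this]; simp
  calc Pn θ n {h | Xn F x0 n h (e (i, j)) ∈ B}
      ≤ Pn θ n (⋃ m : ℕ, ⋃ l : List.Vector Tok m, E m l) := measure_mono hcover
    _ ≤ ∑' m : ℕ, Pn θ n (⋃ l : List.Vector Tok m, E m l) := measure_iUnion_le _
    _ ≤ ∑' m : ℕ, (1 / 2 : ℝ≥0∞) ^ m * δ ^ 3 := by
        refine ENNReal.tsum_le_tsum fun m => ?_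
        calc Pn θ n (⋃ l : List.Vector Tok m, E m l)
            ≤ ∑ l : List.Vector Tok m, Pn θ n (E m l) := measure_iUnion_fintype_le _ _
          _ ≤ ∑ _l : List.Vector Tok m, δ ^ (m + 3) := Finset.sum_le_sum fun l _ => hE m l
          _ = (16 : ℝ≥0∞) ^ m * δ ^ (m + 3) := by
              rw [Finset.sum_const, Finset.card_univ, card_vector, nsmul_eq_mul]
              congr 1
              norm_num
          _ = (1 / 2 : ℝ≥0∞) ^ m * δ ^ 3 := by
              rw [pow_add, ← mul_assoc, ← mul_pow]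
              congr 2
              rw [hδ, ENNReal.div_eq_inv_mul, ENNReal.div_eq_inv_mul, mul_one, mul_one]
              have : (32 : ℝ≥0∞) = 16 * 2 := by norm_num
              rw [this, ENNReal.mul_inv (by norm_num) (by norm_num), ← mul_assoc,
                ENNReal.mul_inv_cancel (by norm_num) (by norm_num), one_mul]
    _ = 2 * δ ^ 3 := by
        rw [ENNReal.tsum_mul_right]
        congr 1
        rw [ENNReal.tsum_geometric]
        simp
    _ ≤ δ := by
        have h1 : δ ^ 3 = δ * δ ^ 2 := by ring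
        rw [h1, ← mul_assoc, mul_comm 2 δ, mul_assoc]
        refine mul_le_of_le_one_right' ?_
        have h2 : δ ≤ 1 / 2 := by
          rw [hδ]
          gcongr
          norm_num
        calc 2 * δ ^ 2 ≤ 2 * (1 / 2 : ℝ≥0∞) ^ 2 := by gcongr
          _ = (2 * (1 / 2)) * (1 / 2) := by ring
          _ ≤ 1 * 1 := by
            gcongr
            · rw [ENNReal.mul_div_cancel (by norm_num) (by norm_num)]
            · norm_num
          _ = 1 := by ring

end Pool.Agent.MP798553
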