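import Mathlib
import Pool.Agent.Lib.MP_798553_pr.Walk

/-!
# MP_798553_pr: general sites and alphabets

The probabilistic part of the non-ergodicity proof for an arbitrary countable set of sites and an
arbitrary finite alphabet, and the existence of an invariant measure.
-/

set_option autoImplicit false

open MeasureTheory Filter Topology
open scoped ENNReal BoundedContinuousFunction

namespace Pool.Agent.MP798553.Gen

variable {ι : Type} {q : ℕ}

/-- One-site noise law. -/
noncomputable def nu (θ : Fin q → PMF (Fin q)) : Measure (Fin q → Fin q) :=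
  Measure.pi (fun b => (θ b).toMeasure)

instance (θ : Fin q → PMF (Fin q)) : IsProbabilityMeasure (nu θ) := by
  unfold nu; infer_instance

variable (ι) in
/-- The law of the noise field. -/
noncomputable def Qn (θ : Fin q → PMF (Fin q)) : Measure (ι → Fin q → Fin q) :=
  Measure.infinitePi (fun _ : ι => nu θ)

instance (θ : Fin q → PMF (Fin q)) : IsProbabilityMeasure (Qn ι θ) := by
  unfold Qn; infer_instance

/-- The noise kernel. -/
noncomputable def noise (θ : Fin q → PMF (Fin q)) (y : ι → Fin q) : Measure (ι → Fin q) :=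
  Measure.infinitePi (fun i : ι => (θ (y i)).toMeasure)

/-- One step: first `F`, then the noise. -/
noncomputable def step (F : (ι → Fin q) → (ι → Fin q)) (θ : Fin q → PMF (Fin q))
    (μ : Measure (ι → Fin q)) : Measure (ι → Fin q) :=
  (μ.map F).bind (noise θ)

lemma nu_map (θ : Fin q → PMF (Fin q)) (b : Fin q) :
    (nu θ).map (fun g => g b) = (θ b).toMeasure :=
  (measurePreserving_eval (fun b => (θ b).toMeasure) b).map_eq

/-- Apply a random map at each site. -/
def ap (y : ι → Fin q) (w : ι → Fin q → Fin q) : ι → Fin q := fun i => w i (y i)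

lemma noise_eq (θ : Fin q → PMF (Fin q)) (y : ι → Fin q) :
    noise θ y = (Qn ι θ).map (ap y) := by
  unfold noise Qn ap
  have := Measure.infinitePi_map_pi (μ := fun _ : ι => nu θ)
    (f := fun i (g : Fin q → Fin q) => g (y i)) (fun i => by fun_prop)
  rw [this]
  congr 1
  ext1 i
  rw [nu_map]

lemma measurable_ap :
    Measurable (fun p : (ι → Fin q) × (ι → Fin q → Fin q) => ap p.1 p.2) := by
  refine measurable_pi_iff.2 fun i => ?_
  have h1 : Measurable (fun p : (ι → Fin q) × (ι → Fin q → Fin q) =>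
      ((p.2 i, p.1 i) : (Fin q → Fin q) × Fin q)) := by
    refine Measurable.prodMk ?_ ?_
    · fun_prop
    · exact (measurable_pi_apply i).comp measurable_fst
  have h2 : Measurable (fun z : (Fin q → Fin q) × Fin q => z.1 z.2) := Measurable.of_discrete
  exact h2.comp h1

lemma measurable_ap' (y : ι → Fin q) : Measurable (ap y) :=
  measurable_ap.comp (measurable_const.prodMk measurable_id)

lemma measurable_noise (θ : Fin q → PMF (Fin q)) : Measurable (noise (ι := ι) θ) := by
  refine Measure.measurable_of_measurable_coe _ fun s hs => ?_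
  have : (fun y => noise θ y s) =
      fun y => Qn ι θ (Prod.mk y ⁻¹'
        ((fun p : (ι → Fin q) × (ι → Fin q → Fin q) => ap p.1 p.2) ⁻¹' s)) := by
    ext y
    rw [noise_eq, Measure.map_apply (measurable_ap' y) hs]
    rfl
  rw [this]
  exact measurable_measure_prodMk_left (measurable_ap hs)

lemma bind_noise (θ : Fin q → PMF (Fin q)) (m : Measure (ι → Fin q)) [SFinite m] :
    m.bind (noise θ) = (m.prod (Qn ι θ)).map (fun p => ap p.1 p.2) := by
  ext s hs
  rw [Measure.bind_apply hs (measurable_noise θ).aemeasurable, Measure.map_apply measurable_ap hs,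
    Measure.prod_apply (measurable_ap hs)]
  refine lintegral_congr fun y => ?_
  rw [noise_eq, Measure.map_apply (measurable_ap' y) hs]
  rfl

lemma step_eq (F : (ι → Fin q) → (ι → Fin q)) (hF : Measurable F) (θ : Fin q → PMF (Fin q))
    (m : Measure (ι → Fin q)) [SFinite m] :
    step F θ m = (m.prod (Qn ι θ)).map (fun p => ap (F p.1) p.2) := by
  have h1 : (m.map F).prod (Qn ι θ) = (m.prod (Qn ι θ)).map (Prod.map F id) := by
    have := Measure.map_prod_map m (Qn ι θ) hF measurable_id
    rwa [Measure.map_id] at this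
  rw [step, bind_noise, h1, Measure.map_map measurable_ap (hF.prodMap measurable_id)]
  rfl

theorem step_prob (F : (ι → Fin q) → (ι → Fin q)) (hF : Measurable F) (θ : Fin q → PMF (Fin q))
    (m : Measure (ι → Fin q)) [IsProbabilityMeasure m] : IsProbabilityMeasure (step F θ m) := by
  rw [step_eq F hF]
  exact Measure.isProbabilityMeasure_map
    ((measurable_ap.comp (hF.prodMap measurable_id)).aemeasurable)

/-- Noise histories of length `n`. -/
def Hist (ι : Type) (q : ℕ) : ℕ → Type
  | 0 => Unit
  | n + 1 => Hist ι q n × (ι → Fin q → Fin q)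

instance instHist : (n : ℕ) → MeasurableSpace (Hist ι q n)
  | 0 => (inferInstance : MeasurableSpace Unit)
  | n + 1 => @Prod.instMeasurableSpace _ _ (instHist n)
      (inferInstance : MeasurableSpace (ι → Fin q → Fin q))

variable (ι) in
/-- The law of the noise history. -/
noncomputable def Pn (θ : Fin q → PMF (Fin q)) : (n : ℕ) → Measure (Hist ι q n)
  | 0 => (Measure.dirac () : Measure Unit)
  | n + 1 => (Pn θ n).prod (Qn ι θ)

instance instPn (θ : Fin q → PMF (Fin q)) : (n : ℕ) → IsProbabilityMeasure (Pn ι θ n)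
  | 0 => (inferInstance : IsProbabilityMeasure (Measure.dirac () : Measure Unit))
  | n + 1 => by
    have := instPn θ n
    exact (inferInstance : IsProbabilityMeasure ((Pn ι θ n).prod (Qn ι θ)))

/-- The configuration at time `n`. -/
def Xn (F : (ι → Fin q) → (ι → Fin q)) (x0 : ι → Fin q) : (n : ℕ) → Hist ι q n → (ι → Fin q)
  | 0, _ => x0
  | n + 1, h => ap (F (Xn F x0 n h.1)) h.2

lemma measurable_Xn (F : (ι → Fin q) → (ι → Fin q)) (hF : Measurable F) (x0 : ι → Fin q)
    (n : ℕ) : Measurable (Xn F x0 n) := by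
  induction n with
  | zero => exact measurable_const
  | succ n ih =>
    exact measurable_ap.comp ((hF.comp (ih.comp measurable_fst)).prodMk measurable_snd)

/-- The law of the configuration at time `n` is the `n`-th iterate. -/
theorem law_Xn (F : (ι → Fin q) → (ι → Fin q)) (hF : Measurable F)
    (θ : Fin q → PMF (Fin q)) (x0 : ι → Fin q) (n : ℕ) :
    (step F θ)^[n] (Measure.dirac x0) = (Pn ι θ n).map (Xn F x0 n) := by
  induction n with
  | zero =>
    simp only [Function.iterate_zero, id_eq]
    change _ = Measure.map (fun _ : Unit => x0) (Measure.dirac ())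
    rw [Measure.map_dirac' measurable_const]
  | succ n ih =>
    rw [Function.iterate_succ_apply', ih, step_eq F hF]
    have h1 : ((Pn ι θ n).map (Xn F x0 n)).prod (Qn ι θ) =
        ((Pn ι θ n).prod (Qn ι θ)).map (Prod.map (Xn F x0 n) id) := by
      have := Measure.map_prod_map (Pn ι θ n) (Qn ι θ) (measurable_Xn F hF x0 n) measurable_id
      rwa [Measure.map_id] at this
    have h2 : Measurable (fun p : (ι → Fin q) × (ι → Fin q → Fin q) => ap (F p.1) p.2) :=
      measurable_ap.comp (hF.prodMap measurable_id)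
    rw [h1, Measure.map_map h2 ((measurable_Xn F hF x0 n).prodMap measurable_id)]
    rfl

/-- The set of defects in a noise history: defect at `(i, j, t)` if `1 ≤ t ≤ n` and the noise map
at time `t` at the site `e (i, j)` lies in `A`. -/
def Dn (e : ℤ × ℤ → ι) (A : Set (Fin q → Fin q)) : (n : ℕ) → Hist ι q n → Set (ℤ × ℤ × ℤ)
  | 0, _ => ∅
  | n + 1, h => Dn e A n h.1 ∪ {p | p.2.2 = (n : ℤ) + 1 ∧ h.2 (e (p.1, p.2.1)) ∈ A}

lemma Dn_le (e : ℤ × ℤ → ι) (A : Set (Fin q → Fin q)) (n : ℕ) (h : Hist ι q n)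
    (p : ℤ × ℤ × ℤ) (hp : p ∈ Dn e A n h) : p.2.2 ≤ n := by
  induction n with
  | zero => exact absurd hp (by simp [Dn])
  | succ n ih =>
    rcases hp with hp | hp
    · have := ih h.1 hp
      push_cast; omega
    · have := hp.1
      push_cast; omega

/-- Probability that finitely many given points are all defects. -/
lemma prob_defects (θ : Fin q → PMF (Fin q)) (e : ℤ × ℤ → ι) (he : Function.Injective e)
    (A : Set (Fin q → Fin q)) (ε : ℝ≥0∞) (hA : nu θ A ≤ ε) (n : ℕ)
    (S : Finset (ℤ × ℤ × ℤ)) :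
    Pn ι θ n {h | ∀ p ∈ S, p ∈ Dn e A n h} ≤ ε ^ S.card := by
  classical
  induction n generalizing S with
  | zero =>
    by_cases hS : S = ∅
    · subst hS
      simp
    · obtain ⟨p, hp⟩ := Finset.nonempty_iff_ne_empty.2 hS
      have : {h : Hist ι q 0 | ∀ p ∈ S, p ∈ Dn e A 0 h} = ∅ := by
        ext h
        simp only [Set.mem_ofPred_eq, Set.mem_empty_iff_false, iff_false]
        intro hh
        exact absurd (hh p hp) (by simp [Dn])
      rw [this]; simp
  | succ n ih =>
    set S2 := S.filter (fun p => p.2.2 = (n : ℤ) + 1) with hS2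
    set S1 := S.filter (fun p => ¬ p.2.2 = (n : ℤ) + 1) with hS1
    have hcard : S.card = S1.card + S2.card := by
      rw [add_comm, hS1, hS2, Finset.card_filter_add_card_filter_not]
    let T2 : Finset ι := S2.image (fun p => e (p.1, p.2.1))
    have hT2 : T2.card = S2.card := by
      refine Finset.card_image_of_injOn ?_
      intro p hp q hq hpq
      have h1 := he hpq
      have hp' := (Finset.mem_filter.1 (Finset.mem_coe.1 hp)).2
      have hq' := (Finset.mem_filter.1 (Finset.mem_coe.1 hq)).2
      have h2 : p.2.2 = q.2.2 := by rw [hp', hq']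
      simp only [Prod.mk.injEq] at h1
      exact Prod.ext h1.1 (Prod.ext h1.2 h2)
    have hsub : {h : Hist ι q (n + 1) | ∀ p ∈ S, p ∈ Dn e A (n + 1) h} ⊆
        {h | ∀ p ∈ S1, p ∈ Dn e A n h} ×ˢ (Set.pi (T2 : Set ι) (fun _ => A)) := by
      rintro ⟨h, w⟩ hh
      constructor
      · intro p hp
        have hp' := Finset.mem_filter.1 hp
        rcases hh p hp'.1 with h3 | h3
        · exact h3
        · exact absurd h3.1 hp'.2
      · intro s hs
        simp only [T2, Finset.coe_image, Set.mem_image, Finset.mem_coe] at hs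
        obtain ⟨p, hp, rfl⟩ := hs
        have hp' := Finset.mem_filter.1 hp
        rcases hh p hp'.1 with h3 | h3
        · have := Dn_le _ _ _ _ _ h3
          rw [hp'.2] at this
          omega
        · exact h3.2
    calc Pn ι θ (n + 1) {h | ∀ p ∈ S, p ∈ Dn e A (n + 1) h}
        ≤ ((Pn ι θ n).prod (Qn ι θ)) ({h | ∀ p ∈ S1, p ∈ Dn e A n h} ×ˢ
            (Set.pi (T2 : Set ι) (fun _ => A))) := measure_mono hsub
      _ = Pn ι θ n {h | ∀ p ∈ S1, p ∈ Dn e A n h} * Qn ι θ (Set.pi (T2 : Set ι) (fun _ => A)) :=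
          Measure.prod_prod _ _
      _ ≤ ε ^ S1.card * ε ^ S2.card := by
          refine mul_le_mul' (ih S1) ?_
          rw [Qn, Measure.infinitePi_pi _ (fun _ _ => MeasurableSet.of_discrete),
            Finset.prod_const, hT2]
          exact pow_le_pow_left' hA _
      _ = ε ^ S.card := by rw [hcard, pow_add]

/-- The main estimate. -/
theorem main_bound (F : (ι → Fin q) → (ι → Fin q)) (θ : Fin q → PMF (Fin q)) (x0 : ι → Fin q)
    (e : ℤ × ℤ → ι) (he : Function.Injective e) (A : Set (Fin q → Fin q)) (B : Set (Fin q))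
    (hx0 : ∀ i, x0 i ∉ B)
    (hstep : ∀ (x : ι → Fin q) (w : ι → Fin q → Fin q) (i j : ℤ),
      w (e (i, j)) (F x (e (i, j))) ∈ B →
      w (e (i, j)) ∈ A ∨ ((x (e (i, j)) ∈ B ∨ x (e (i, j + 1)) ∈ B) ∧
        (x (e (i + 1, j)) ∈ B ∨ x (e (i + 1, j + 1)) ∈ B)))
    (hA : nu θ A ≤ (1 / 32 : ℝ≥0∞) ^ 4) (n : ℕ) (i j : ℤ) :
    Pn ι θ n {h | Xn F x0 n h (e (i, j)) ∈ B} ≤ (1 / 32 : ℝ≥0∞) := by
  classical
  have hreach : ∀ n : ℕ, ∀ h : Hist ι q n, ∀ i j : ℤ, Xn F x0 n h (e (i, j)) ∈ B →
      Reach (Dn e A n h) (false, i, j, (n : ℤ)) (true, i, j, (n : ℤ)) := by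
    intro n
    induction n with
    | zero =>
      intro h i j hB
      exact absurd hB (hx0 _)
    | succ n ih =>
      rintro ⟨h, w⟩ i j hB
      have hmono : Dn e A n h ⊆ Dn e A (n + 1) (h, w) := fun p hp => Or.inl hp
      rcases hstep (Xn F x0 n h) w i j hB with hA' | ⟨h1, h2⟩
      · refine reach_K (Or.inr ⟨?_, hA'⟩)
        push_cast; ring
      · have hL : ∃ a : Bool, Xn F x0 n h (e (i, j + bz a)) ∈ B := by
          rcases h1 with h1 | h1
          · exact ⟨false, by simpa [bz] using h1⟩
          · exact ⟨true, by simpa [bz] using h1⟩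
        have hR : ∃ a : Bool, Xn F x0 n h (e (i + 1, j + bz a)) ∈ B := by
          rcases h2 with h2 | h2
          · exact ⟨false, by simpa [bz] using h2⟩
          · exact ⟨true, by simpa [bz] using h2⟩
        obtain ⟨a, ha⟩ := hL
        obtain ⟨b, hb⟩ := hR
        have := reach_succ a b ((ih h _ _ ha).mono hmono) ((ih h _ _ hb).mono hmono)
        simpa using this
  set r : ℤ × ℤ × ℤ := (i, j, (n : ℤ)) with hr
  set δ : ℝ≥0∞ := 1 / 32 with hδ
  let E : (m : ℕ) → List.Vector Tok m → Set (Hist ι q n) := fun m l =>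
    {h | (kpts l.1 (false, r)).Nodup ∧ 4 * (kpts l.1 (false, r)).length = m + 3 ∧
      ∀ q ∈ kpts l.1 (false, r), q ∈ Dn e A n h}
  have hcover : {h | Xn F x0 n h (e (i, j)) ∈ B} ⊆ ⋃ m : ℕ, ⋃ l : List.Vector Tok m, E m l := by
    intro h hh
    obtain ⟨l, h1, h2, h3⟩ := exists_walk (hreach n h i j hh)
    exact Set.mem_iUnion.2 ⟨l.length, Set.mem_iUnion.2 ⟨⟨l, rfl⟩, h1, h2, h3⟩⟩
  have hE : ∀ m (l : List.Vector Tok m), Pn ι θ n (E m l) ≤ δ ^ (m + 3) := by
    intro m l
    by_cases hc : (kpts l.1 (false, r)).Nodup ∧ 4 * (kpts l.1 (false, r)).length = m + 3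
    · have hsub : E m l ⊆ {h | ∀ p ∈ (kpts l.1 (false, r)).toFinset, p ∈ Dn e A n h} := by
        intro h hh p hp
        exact hh.2.2 p (List.mem_toFinset.1 hp)
      calc Pn ι θ n (E m l) ≤ _ := measure_mono hsub
        _ ≤ (δ ^ 4) ^ (kpts l.1 (false, r)).toFinset.card := prob_defects θ e he A _ hA n _
        _ = δ ^ (m + 3) := by
          rw [← pow_mul, List.toFinset_card_of_nodup hc.1, hc.2]
    · have : E m l = ∅ := by
        ext h
        simp only [Set.mem_empty_iff_false, iff_false]
        rintro ⟨h1, h2, -⟩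
        exact hc ⟨h1, h2⟩
      rw [this]; simp
  calc Pn ι θ n {h | Xn F x0 n h (e (i, j)) ∈ B}
      ≤ Pn ι θ n (⋃ m : ℕ, ⋃ l : List.Vector Tok m, E m l) := measure_mono hcover
    _ ≤ ∑' m : ℕ, Pn ι θ n (⋃ l : List.Vector Tok m, E m l) := measure_iUnion_le _
    _ ≤ ∑' m : ℕ, (1 / 2 : ℝ≥0∞) ^ m * δ ^ 3 := by
        refine ENNReal.tsum_le_tsum fun m => ?_
        calc Pn ι θ n (⋃ l : List.Vector Tok m, E m l)
            ≤ ∑ l : List.Vector Tok m, Pn ι θ n (E m l) := measure_iUnion_fintype_le _ _
          _ ≤ ∑ _l : List.Vector Tok m, δ ^ (m + 3) := Finset.sum_le_sum fun l _ => hE m l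
          _ = (16 : ℝ≥0∞) ^ m * δ ^ (m + 3) := by
              rw [Finset.sum_const, Finset.card_univ, card_vector, nsmul_eq_mul]
              congr 1
              norm_num
          _ = (1 / 2 : ℝ≥0∞) ^ m * δ ^ 3 := by
              rw [pow_add, ← mul_assoc, ← mul_pow]
              congr 2
              rw [hδ, ENNReal.div_eq_inv_mul, ENNReal.div_eq_inv_mul, mul_one, mul_one]
              have : (32 : ℝ≥0∞) = 16 * 2 := by norm_num
              rw [this, ENNReal.mul_inv (by norm_num) (by norm_num), ← mul_assoc,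
                ENNReal.mul_inv_cancel (by norm_num) (by norm_num), one_mul]
    _ = 2 * δ ^ 3 := by
        rw [ENNReal.tsum_mul_right]
        congr 1
        rw [ENNReal.tsum_geometric]
        simp
    _ ≤ δ := by
        have h1 : δ ^ 3 = δ * δ ^ 2 := by ring
        rw [h1, ← mul_assoc, mul_comm 2 δ, mul_assoc]
        refine mul_le_of_le_one_right' ?_
        have h2 : δ ≤ 1 / 2 := by
          rw [hδ]
          gcongr
          norm_num
        calc 2 * δ ^ 2 ≤ 2 * (1 / 2 : ℝ≥0∞) ^ 2 := by gcongr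
          _ = (2 * (1 / 2)) * (1 / 2) := by ring
          _ ≤ 1 * 1 := by
            gcongr
            · rw [ENNReal.mul_div_cancel (by norm_num) (by norm_num)]
            · norm_num
          _ = 1 := by ring

/-! ### Existence of an invariant measure -/

lemma continuous_ap (w : ι → Fin q → Fin q) : Continuous (fun y : ι → Fin q => ap y w) := by
  refine continuous_pi fun i => ?_
  exact (continuous_of_discreteTopology (f := w i)).comp (continuous_apply i)

/-- The dual action on continuous functions. -/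
noncomputable def dual [Countable ι] (F : (ι → Fin q) → (ι → Fin q)) (hF : Continuous F)
    (θ : Fin q → PMF (Fin q)) (f : (ι → Fin q) →ᵇ ℝ) : (ι → Fin q) →ᵇ ℝ :=
  BoundedContinuousFunction.ofNormedAddCommGroup
    (fun x => ∫ w, f (ap (F x) w) ∂(Qn ι θ))
    (by
      refine continuous_of_dominated (bound := fun _ => ‖f‖) (fun x => ?_) (fun x => ?_)
        (integrable_const _) ?_
      · exact (f.continuous.measurable.comp (measurable_ap' (F x))).aestronglyMeasurable
      · exact Eventually.of_forall fun w => f.norm_coe_le_norm _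
      · exact Eventually.of_forall fun w => f.continuous.comp ((continuous_ap w).comp hF))
    ‖f‖
    (by
      intro x
      refine (norm_integral_le_of_norm_le_const
        (Eventually.of_forall fun w => f.norm_coe_le_norm _)).trans ?_
      simp)

lemma integral_step [Countable ι] (F : (ι → Fin q) → (ι → Fin q)) (hF : Continuous F)
    (θ : Fin q → PMF (Fin q)) (f : (ι → Fin q) →ᵇ ℝ) (m : Measure (ι → Fin q))
    [IsProbabilityMeasure m] :
    ∫ x, f x ∂(step F θ m) = ∫ x, dual F hF θ f x ∂m := by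
  have hm : Measurable (fun p : (ι → Fin q) × (ι → Fin q → Fin q) => ap (F p.1) p.2) :=
    measurable_ap.comp (hF.measurable.prodMap measurable_id)
  rw [step_eq F hF.measurable, integral_map hm.aemeasurable
    f.continuous.measurable.aestronglyMeasurable, integral_prod]
  · rfl
  · refine Integrable.of_bound (f.continuous.measurable.comp hm).aestronglyMeasurable ‖f‖ ?_
    exact Eventually.of_forall fun p => f.norm_coe_le_norm _

/-- An invariant measure with a bound on the mass of a clopen set. -/
theorem exists_invariant [Countable ι] (F : (ι → Fin q) → (ι → Fin q)) (hF : Continuous F)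
    (θ : Fin q → PMF (Fin q)) (x0 : ι → Fin q) (C : Set (ι → Fin q)) (hC : IsClopen C) (r : ℝ)
    (h : ∀ n, ((step F θ)^[n] (Measure.dirac x0)).real C ≤ r) :
    ∃ μ : Measure (ι → Fin q), IsProbabilityMeasure μ ∧ step F θ μ = μ ∧ μ.real C ≤ r := by
  classical
  set m : ℕ → Measure (ι → Fin q) := fun n => (step F θ)^[n] (Measure.dirac x0) with hm
  have hmp : ∀ n, IsProbabilityMeasure (m n) := by
    intro n
    induction n with
    | zero => simp only [hm, Function.iterate_zero, id_eq]; infer_instance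
    | succ n ih =>
      simp only [hm, Function.iterate_succ_apply']
      exact @step_prob _ _ F hF.measurable θ _ ih
  have hms : ∀ n, step F θ (m n) = m (n + 1) := fun n => by
    simp only [hm, Function.iterate_succ_apply']
  -- averages
  set c : ℕ → Measure (ι → Fin q) := fun n =>
    ((n + 1 : ℕ) : ℝ≥0∞)⁻¹ • ∑ t ∈ Finset.range (n + 1), m t with hc
  have hcp : ∀ n, IsProbabilityMeasure (c n) := by
    intro n
    constructor
    simp only [hc, Measure.smul_apply, Measure.coe_finsetSum, Finset.sum_apply,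
      measure_univ, Finset.sum_const, Finset.card_range, nsmul_eq_mul, mul_one, smul_eq_mul]
    exact ENNReal.inv_mul_cancel (by simp) (by simp)
  have hint : ∀ (n : ℕ) (f : (ι → Fin q) →ᵇ ℝ), ∫ x, f x ∂(c n) =
      ((n + 1 : ℕ) : ℝ)⁻¹ * ∑ t ∈ Finset.range (n + 1), ∫ x, f x ∂(m t) := by
    intro n f
    simp only [hc]
    rw [integral_smul_measure, integral_finsetSum_measure, smul_eq_mul, ENNReal.toReal_inv,
      ENNReal.toReal_natCast]
    intro t _
    have := hmp t
    exact f.integrable (m t)
  let cc : ℕ → ProbabilityMeasure (ι → Fin q) := fun n => ⟨c n, hcp n⟩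
  obtain ⟨μ, hμ⟩ : ∃ μ : ProbabilityMeasure (ι → Fin q),
      Tendsto cc (hyperfilter ℕ : Filter ℕ) (𝓝 μ) := by
    refine ⟨((hyperfilter ℕ).map cc).lim, ?_⟩
    exact ((hyperfilter ℕ).map cc).le_nhds_lim
  rw [ProbabilityMeasure.tendsto_iff_forall_integral_tendsto] at hμ
  have hμ' : ∀ f : (ι → Fin q) →ᵇ ℝ,
      Tendsto (fun n => ∫ x, f x ∂(c n)) (hyperfilter ℕ : Filter ℕ)
        (𝓝 (∫ x, f x ∂(μ : Measure _))) :=
    fun f => hμ f
  refine ⟨μ, inferInstance, ?_, ?_⟩
  · have := step_prob F hF.measurable θ (μ : Measure (ι → Fin q))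
    refine ext_of_forall_integral_eq_of_IsFiniteMeasure fun f => ?_
    rw [integral_step F hF]
    have h1 : Tendsto (fun n => ∫ x, dual F hF θ f x ∂(c n) - ∫ x, f x ∂(c n))
        (hyperfilter ℕ : Filter ℕ) (𝓝 0) := by
      have h2 : ∀ n, ∫ x, dual F hF θ f x ∂(c n) - ∫ x, f x ∂(c n) =
          ((n + 1 : ℕ) : ℝ)⁻¹ * (∫ x, f x ∂(m (n + 1)) - ∫ x, f x ∂(m 0)) := by
        intro n
        rw [hint, hint, ← mul_sub, ← Finset.sum_sub_distrib]
        congr 1
        have h3 : ∀ t, ∫ x, dual F hF θ f x ∂(m t) = ∫ x, f x ∂(m (t + 1)) := by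
          intro t
          have := hmp t
          rw [← integral_step F hF, hms]
        simp only [h3]
        exact Finset.sum_range_sub (fun t => ∫ x, f x ∂(m t)) (n + 1)
      have h4 : ∀ n, |∫ x, dual F hF θ f x ∂(c n) - ∫ x, f x ∂(c n)| ≤
          ((n + 1 : ℕ) : ℝ)⁻¹ * (2 * ‖f‖) := by
        intro n
        rw [h2, abs_mul, abs_of_nonneg (by positivity : (0 : ℝ) ≤ ((n + 1 : ℕ) : ℝ)⁻¹)]
        refine mul_le_mul_of_nonneg_left ?_ (by positivity)
        have hb : ∀ t, |∫ x, f x ∂(m t)| ≤ ‖f‖ := by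
          intro t
          have := hmp t
          have h5 := norm_integral_le_of_norm_le_const (μ := m t)
            (Eventually.of_forall fun x => f.norm_coe_le_norm x)
          simpa using h5
        have h6 := abs_sub (∫ x, f x ∂(m (n + 1))) (∫ x, f x ∂(m 0))
        have h7 := hb (n + 1)
        have h8 := hb 0
        linarith
      have h9 : Tendsto (fun n : ℕ => ((n + 1 : ℕ) : ℝ)⁻¹ * (2 * ‖f‖)) atTop (𝓝 0) := by
        have := (tendsto_inv_atTop_nhds_zero_nat (𝕜 := ℝ)).comp (tendsto_add_atTop_nat 1)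
        have := this.mul_const (2 * ‖f‖)
        simpa using this
      have h10 := h9.mono_left (Nat.hyperfilter_le_atTop)
      exact squeeze_zero_norm (fun n => by simpa using h4 n) h10
    have h5 := (hμ' (dual F hF θ f)).sub (hμ' f)
    have h6 := tendsto_nhds_unique h5 h1
    linarith
  · let g : (ι → Fin q) →ᵇ ℝ := BoundedContinuousFunction.ofNormedAddCommGroup
      (C.indicator fun _ => (1 : ℝ)) (hC.continuous_indicator continuous_const) 1 (by
        intro x
        by_cases hx : x ∈ C <;> simp [hx])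
    have hg : ∀ (ν : Measure (ι → Fin q)) [IsProbabilityMeasure ν], ∫ x, g x ∂ν = ν.real C := by
      intro ν _
      change ∫ x, C.indicator (fun _ => (1 : ℝ)) x ∂ν = _
      rw [integral_indicator hC.isOpen.measurableSet]
      simp
    have h1 := hμ' g
    rw [hg] at h1
    refine le_of_tendsto' h1 fun n => ?_
    rw [hint]
    have h2 : ∑ t ∈ Finset.range (n + 1), ∫ x, g x ∂(m t) ≤ ((n + 1 : ℕ) : ℝ) * r := by
      calc ∑ t ∈ Finset.range (n + 1), ∫ x, g x ∂(m t)
          ≤ ∑ _t ∈ Finset.range (n + 1), r := by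
            refine Finset.sum_le_sum fun t _ => ?_
            have := hmp t
            rw [hg]
            exact h t
        _ = ((n + 1 : ℕ) : ℝ) * r := by simp
    calc ((n + 1 : ℕ) : ℝ)⁻¹ * ∑ t ∈ Finset.range (n + 1), ∫ x, g x ∂(m t)
        ≤ ((n + 1 : ℕ) : ℝ)⁻¹ * (((n + 1 : ℕ) : ℝ) * r) :=
          mul_le_mul_of_nonneg_left h2 (by positivity)
      _ = r := by
          rw [← mul_assoc, inv_mul_cancel₀ (by positivity), one_mul]

end Pool.Agent.MP798553.Gen
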